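import Pool.Agent.Helper61.NW.Goals

/-!
# Project TE: Cayley graphs of virtually cyclic groups (two ends), in union with project NW
-/

set_option autoImplicit false

namespace Pool.Agent.Helper74.TE

open Pool.Agent.Helper52.Wq2 Pool.Agent.Helper61.NW
open scoped Nat

universe u

/-! ### Part 1: graphs of lines -/

/-- A graph of `n` lines, with coordinates. -/
structure Lined {n : ℕ} (G : SimpleGraph (ℤ × Fin n)) (M : ℕ) : Prop where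
  vert : ∀ x i, G.Adj (x, i) (x + 1, i)
  only : ∀ x y i, G.Adj (x, i) (y, i) → y = x + 1 ∨ x = y + 1
  bdd : ∀ x y i j, G.Adj (x, i) (y, j) → |y - x| ≤ M
  mpos : 0 < M
  per : ∀ x y i j, G.Adj (x + M, i) (y + M, j) ↔ G.Adj (x, i) (y, j)
  conn : Conn G Set.univ
  tr : ∀ i j : Fin n, ∃ (e : G ≃g G) (σ : Fin n ≃ Fin n), σ i = j ∧ (∀ v, (e v).2 = σ v.2) ∧
    ((∀ k, ∃ c : ℤ, ∀ x, (e (x, k)).1 = x + c) ∨ (∀ k, ∃ c : ℤ, ∀ x, (e (x, k)).1 = c - x))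

/-- The same without coordinates. -/
structure LinedV {V ι : Type u} (G : SimpleGraph V) (M : ℕ) (pos : V → ℤ) (ln : V → ι) :
    Prop where
  bij : Function.Bijective fun v => (pos v, ln v)
  vert : ∀ v w, ln w = ln v → pos w = pos v + 1 → G.Adj v w
  only : ∀ v w, G.Adj v w → ln v = ln w → pos w = pos v + 1 ∨ pos v = pos w + 1
  bdd : ∀ v w, G.Adj v w → |pos w - pos v| ≤ M
  mpos : 0 < M
  per : ∃ e : G ≃g G, ∀ v, pos (e v) = pos v + M ∧ ln (e v) = ln v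
  conn : Conn G Set.univ
  tr : ∀ i j : ι, ∃ (e : G ≃g G) (σ : ι ≃ ι), σ i = j ∧ (∀ v, ln (e v) = σ (ln v)) ∧
    ((∀ k, ∃ c : ℤ, ∀ v, ln v = k → pos (e v) = pos v + c) ∨
      (∀ k, ∃ c : ℤ, ∀ v, ln v = k → pos (e v) = c - pos v))

/-- **TRN.** Transport along the bijection `(pos, ln)` and `ι ≃ Fin n`. -/
def TrnStmt : Prop := ∀ (V ι : Type u) [Finite ι] (G : SimpleGraph V) (M : ℕ) (pos : V → ℤ)
  (ln : V → ι), LinedV G M pos ln → ∀ n : ℕ, Nat.card ι = n →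
  ∃ G' : SimpleGraph (ℤ × Fin n), Lined G' M ∧ Nonempty (G ≃g G')

/-- The graph of the lines. -/
def LG {n : ℕ} (G : SimpleGraph (ℤ × Fin n)) : SimpleGraph (Fin n) :=
  SimpleGraph.fromRel (fun i j => ∃ x y : ℤ, G.Adj (x, i) (y, j))

/-- **STR.** Stars of lines. Proof (compare `Helper77.NW.stl`). `T = 4 M`: centre `(x, none)`: the points
`(y, i)`, `i ∈ C`, `T x ≤ y < T (x + 1)`, leaf `(x, some k)`: the same on the line `B k`. Adjacent lines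
have an edge in every block of height `3 M` (translate by multiples of `M`; displacement `≤ M`). -/
def StrStmt : Prop := ∀ (n M : ℕ) (G : SimpleGraph (ℤ × Fin n)), Lined G M →
  ∀ (q : ℕ) (C : Set (Fin n)) (B : Fin q → Fin n), Conn (LG G) C → Function.Injective B →
  (∀ i, B i ∉ C) → (∀ i, ∃ A ∈ C, (LG G).Adj A (B i)) → Mn (StarZ (Fin q)) G

/-- The lines form a cycle. -/
def IsCy {n : ℕ} (G : SimpleGraph (ℤ × Fin n)) (e : Fin n ≃ ZMod n) : Prop :=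
  ∀ u v, (LG G).Adj u v ↔ (e v = e u + 1 ∨ e u = e v + 1)

/-- **CYX.** As STR, with blocks (compare `Helper53.NW.cyn`). -/
def CyxStmt : Prop := ∀ (n M : ℕ) (G : SimpleGraph (ℤ × Fin n)), Lined G M → 3 ≤ n →
  ∀ e, IsCy G e → Mn (Cyl n) G

/-- Crossing edges between two lines (symmetric in `i`, `j`). -/
def Cr {n : ℕ} (G : SimpleGraph (ℤ × Fin n)) (i j : Fin n) : Prop :=
  ∃ a a' b b' : ℤ, a < a' ∧ b' < b ∧ G.Adj (a, i) (b, j) ∧ G.Adj (a', i) (b', j)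

/-- **CRS.** Proof (compare `Helper67.NW.crx`, `Helper4.NW` W.lean: graph `W p`, `StarZ ≤ W p`). By `tr`
every line is in a gap with a crossing (`Cr` is preserved by both signs), so after a shift of the numbering
the gaps `(2 j, 2 j + 1)`, `j ≤ q`, `2 j + 1 < n`, have crossings. For such a gap with lines `i`, `j` cut
line `i` at a point `p` with `a < p ≤ a'` and line `j` at a point `p'` with `b' < p' ≤ b`, normalized by
translation to `0 ≤ p < M`; blocks `[p + T x, p + T (x + 1))` on line `i`, `[p' + T x, p' + T (x + 1))`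
on line `j`, `T = 16 M`; the crossing edges at the cuts join block `x - 1` of each line to block `x` of the other
line. Blocks with the same index of neighbouring lines overlap in at least `4 M` rows. -/
def CrsStmt : Prop := ∀ (n M : ℕ) (G : SimpleGraph (ℤ × Fin n)), Lined G M → 3 ≤ n →
  ∀ e, IsCy G e → (∃ i j, i ≠ j ∧ Cr G i j) → ∀ q : ℕ, 2 * q + 4 ≤ n → Mn (StarZ (Fin q)) G

/-- **NCS.** From CYL (`Helper96.NW.cyl`) with `E j a b = G.Adj (a, e.symm j) (b, e.symm (j + 1))`. -/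
def NcsStmt : Prop := ∀ (n M : ℕ) (G : SimpleGraph (ℤ × Fin n)), Lined G M → 3 ≤ n →
  ∀ e, IsCy G e → (∀ i j, i ≠ j → ¬ Cr G i j) → ∃ M₀ : ℕ, ∀ M', M₀ ≤ M' → Mn G (Cyl M')

/-- **PRL.** Blocks of height `M`. -/
def PrlStmt : Prop := ∀ (n M : ℕ) (G : SimpleGraph (ℤ × Fin n)), Lined G M →
  ∃ D, Nonempty (G ≃g Per (n * M) D)

/-- One-dimensional type, with a factor `2`. -/
def T3 {V : Type*} (G : SimpleGraph V) (n : ℕ) : Prop :=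
  (∃ N, N ≤ 2 * (n * (n ! * n)) ∧ ∃ D, Nonempty (G ≃g Per N D)) ∧
  ∀ p : ℕ, (2 * p + 3) ^ (8 * p + 6) + 5 ≤ n → Mn (Pk p) G ∨
    (Mn (Cyl n) G ∧ ∃ M₀ : ℕ, ∀ M, M₀ ≤ M → Mn G (Cyl M))

/-- **TWL.** (May assume STR, CYX, CRS, NCS, PRL; `DegStmt`, `CycStmt` are proved; copy of
`Helper7.NW.ttw`.) -/
def TwlStmt : Prop := ∀ (n M : ℕ) (G : SimpleGraph (ℤ × Fin n)), Lined G M →
  M ≤ 2 * (n ! * n) → T3 G n

/-! ### Part 2: groups -/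

/-- `Γ` acts on `ℤ` by `x • k = h x + ε x * k`, and the kernel is finite. -/
structure Dih {Γ : Type u} [Group Γ] (ε h : Γ → ℤ) : Prop where
  sgn : ∀ x, ε x = 1 ∨ ε x = -1
  mul : ∀ x y, ε (x * y) = ε x * ε y
  hom : ∀ x y, h (x * y) = h x + ε x * h y
  ker : {x | ε x = 1 ∧ h x = 0}.Finite

/-- **VC.** Proof. The normal core of `⟨c⟩` is `⟨d⟩`, of finite index, `d` of infinite order,
`x d x⁻¹ = d ^ (ε x)`. `Γ₀ = {ε = 1}` is the centralizer of `d`. The transfer `Γ₀ → ⟨d⟩` is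
`g ↦ g ^ k`, `k` the index (Mathlib `MonoidHom.transfer`, `transferCenterPow`), `g ^ k = d ^ (h₀ g)`;
the kernel is finite (it meets `⟨d⟩` trivially). `h₀ (r g r⁻¹) = - h₀ g` for `r ∉ Γ₀`, so `h₀ (r ^ 2) = 0`.
`h = h₀` on `Γ₀`, `h (g r) = h₀ g` for a fixed `r ∉ Γ₀`. -/
def VcStmt : Prop := ∀ (Γ : Type u) [Group Γ], Infinite Γ →
  (∃ c : Γ, (Subgroup.zpowers c).FiniteIndex) → ∃ ε h : Γ → ℤ, Dih ε h

/-- **PWR.** Proof. `K = {ε = 1, h = 0}` is a finite normal subgroup; some `a ≤ |K| !`, `a > 0`, with `s ^ a`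
commuting with `K`; `γ s ^ a γ⁻¹ = c s ^ (± a)`, `c ∈ K`; the power `|K|`. -/
def PwrStmt : Prop := ∀ (Γ : Type u) [Group Γ] (ε h : Γ → ℤ), Dih ε h → ∀ s : Γ, ε s = 1 →
  ∃ m : ℕ, 0 < m ∧ m ≤ (Nat.card {x | ε x = 1 ∧ h x = 0}) ! * Nat.card {x | ε x = 1 ∧ h x = 0} ∧
    ∀ γ : Γ, γ * s ^ m * γ⁻¹ = s ^ (ε γ * (m : ℤ))

/-- **CNT.** For the subgroup `Γ₀ = {ε = 1}` and for `Γ`. -/
def CntStmt : Prop := ∀ (Γ : Type u) [Group Γ] (ε h : Γ → ℤ), Dih ε h → ∀ s : Γ, ε s = 1 →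
  h s ≠ 0 → Finite (Γ ⧸ Subgroup.zpowers s) ∧
    Nat.card {x | ε x = 1 ∧ h x = 0} ≤
      Nat.card ((fun x : Γ => (x : Γ ⧸ Subgroup.zpowers s)) '' {x | ε x = 1})

/-- **CA.** Case A. (May assume PWR, CNT.) Lines: the cosets `g ⟨s⟩`; `pos x = ⌊h x / H⌋` if `ε x = 1`, and
`⌊(h x - c₀) / H⌋` if `ε x = -1`; `M = m`. Displacement `≤ 1`. -/
def CaStmt : Prop := ∀ (Γ : Type u) [Group Γ] (ε h : Γ → ℤ) (S : Set Γ) (s : Γ) (c₀ : ℤ),
  Dih ε h → IsGen S → s ∈ S → ε s = 1 → 0 < h s → (∀ t ∈ S, ε t = 1 → |h t| ≤ h s) →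
  (∀ t ∈ S, ε t = -1 → c₀ ≤ h t ∧ h t ≤ c₀ + h s) →
  ∃ (ι : Type u) (n M : ℕ) (pos : Γ → ℤ) (ln : Γ → ι), Finite ι ∧ Nat.card ι = n ∧
    M ≤ 2 * (n ! * n) ∧ LinedV (cay S) M pos ln

/-- **CB.** Case B. (May assume PWR, CNT.) `u = t₁ t₂`, `h u = H = h t₁ - h t₂`. Lines:
`{g u ^ k} ∪ {g u ^ k t₁}`, `g ∈ Γ₀`; `ι` = the cosets `g ⟨u⟩`, `g ∈ Γ₀` (for instance the image in
`Γ ⧸ ⟨u⟩`), `ln x = x ⟨u⟩` if `ε x = 1`, `x t₁⁻¹ ⟨u⟩` if `ε x = -1`; `pos x = 2 ⌊h x / H⌋`, resp.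
`2 ⌊(h x - h t₁) / H⌋ + 1`; `M = 2 m`. Edges by `t`, `ε t = 1`: `pos` changes by at most `2`, and the line
changes (`u ^ k ∈ S` only for `k = 0`); edges by `t`, `ε t = -1`, from `x ∈ Γ₀`:
`h (x t) - h t₁ ∈ [h x - H, h x]`, so `pos` changes by `±1`. Only left multiplications by `Γ₀` are
needed. -/
def CbStmt : Prop := ∀ (Γ : Type u) [Group Γ] (ε h : Γ → ℤ) (S : Set Γ) (t₁ t₂ : Γ),
  Dih ε h → IsGen S → t₁ ∈ S → t₂ ∈ S → ε t₁ = -1 → ε t₂ = -1 → h t₂ < h t₁ →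
  (∀ t ∈ S, ε t = 1 → |h t| < h t₁ - h t₂) →
  (∀ t ∈ S, ε t = -1 → h t₂ ≤ h t ∧ h t ≤ h t₁) →
  ∃ (ι : Type u) (n M : ℕ) (pos : Γ → ℤ) (ln : Γ → ι), Finite ι ∧ Nat.card ι = n ∧
    M ≤ 2 * (n ! * n) ∧ LinedV (cay S) M pos ln

/-- **SEL.** Selection of the case. Proof. `H_A` = maximum of `|h t|`, `t ∈ S`, `ε t = 1`; `H_B` = maximum
minus minimum of `h t`, `t ∈ S`, `ε t = -1`. Case B if `H_A < H_B`, case A if `H_B ≤ H_A`, `0 < H_A`. If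
both are `0`, `{ε = 1, h = 0} ∪ {ε = -1, h = c}` is a finite subgroup which contains `S`. -/
def SelStmt : Prop := ∀ (Γ : Type u) [Group Γ] (ε h : Γ → ℤ) (S : Set Γ), Infinite Γ →
  Dih ε h → IsGen S → S.Finite →
  (∃ (s : Γ) (c₀ : ℤ), s ∈ S ∧ ε s = 1 ∧ 0 < h s ∧ (∀ t ∈ S, ε t = 1 → |h t| ≤ h s) ∧
    (∀ t ∈ S, ε t = -1 → c₀ ≤ h t ∧ h t ≤ c₀ + h s)) ∨
  ∃ t₁ t₂ : Γ, t₁ ∈ S ∧ t₂ ∈ S ∧ ε t₁ = -1 ∧ ε t₂ = -1 ∧ h t₂ < h t₁ ∧
    (∀ t ∈ S, ε t = 1 → |h t| < h t₁ - h t₂) ∧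
    (∀ t ∈ S, ε t = -1 → h t₂ ≤ h t ∧ h t ≤ h t₁)

/-- **INV.** Infinite generating sets (as INF: `conn_normal` with a normal infinite cyclic subgroup, which
contains no free subgroup; or the theorem of `InfiniteGenerators`). -/
def InvStmt : Prop := ∀ (Γ : Type u) [Group Γ] (S : Set Γ), Infinite Γ → IsGen S → S.Infinite →
  (∃ c : Γ, (Subgroup.zpowers c).FiniteIndex) → KN (cay S)

/-- **SQ3.** Copy of `Helper52.NW.seq` with `T3`. -/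
def Sq3Stmt : Prop := ∀ (V : ℕ → Type u) [∀ i, Countable (V i)] (G : ∀ i, SimpleGraph (V i)),
  (∀ i, KN (G i) ∨ (∃ b, Nonempty (G i ≃g Lat b)) ∨ ∃ n, T3 (G i) n) →
  ∃ i j, i < j ∧ Mn (G i) (G j)

/-- **FN3.** (May assume TRN, TWL, VC, CA, CB, SEL, INV, SQ3 and everything of NW.) -/
def Fn3Stmt : Prop := ∀ (Γ : ℕ → Type u) [∀ i, Group (Γ i)] [∀ i, Countable (Γ i)]
  (S : ∀ i, Set (Γ i)), (∀ i, IsGen (S i)) →
  (∀ i, (Infinite (Γ i) ∧ (Group.IsNilpotent (Γ i) ∨ (Subgroup.center (Γ i)).FiniteIndex ∨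
      ∃ c : Γ i, (Subgroup.zpowers c).FiniteIndex)) ∨
    KN (cay (S i))) → ∃ i j, i < j ∧ Mn (cay (S i)) (cay (S j))

end Pool.Agent.Helper74.TE
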